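import Pool.Agent.Q219.WD.Whole

/-!
# Families of representations of the Weil group

The hypotheses `Facts` are proved for all families of representations of the Weil group to which
Weil-Deligne representations are attached.
-/

set_option autoImplicit false

namespace Pool.Agent.Q219.WF

open Polynomial TensorProduct Pool.Agent.Q219.WD
open Pool.Agent.Q187.IL (Data Curve IsTensorOf)

section

variable (p : ℕ) {G : Type} [Group G] [TopologicalSpace G] (I : Subgroup G) (F : G)
  {L : Type} (K : L → Type) [∀ l, Field (K l)] [∀ l, CharZero (K l)] (t : ∀ l, G → K l)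

/-- A family of finite-dimensional representations of the Weil group `G` over the fields `K l` in all
degrees `i`, to which Weil-Deligne representations are attached (for `ℓ`-adic representations this is
Grothendieck's monodromy theorem). -/
structure Fam where
  /-- the dimension -/
  dim : L → ℤ → ℕ
  /-- the representation -/
  rho : ∀ l i, Representation (K l) G (Fin (dim l i) → K l)
  /-- the monodromy theorem -/
  mono : ∀ l i, ∃ (r : Representation (K l) G (Fin (dim l i) → K l))
    (N : Module.End (K l) (Fin (dim l i) → K l)), Attached p I F (t l) (rho l i) r N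

variable [I.Normal]

/-- The data of all families. -/
def data : Data where
  Mot := Fam p I F K t
  Pr := L
  K := K
  G := G
  I := I
  F := F
  V l M i := Fin (M.dim l i) → K l
  rho l M i := M.rho l i

instance : TopologicalSpace (data p I F K t).G := inferInstanceAs (TopologicalSpace G)

instance [IsTopologicalGroup G] : IsTopologicalGroup (data p I F K t).G :=
  inferInstanceAs (IsTopologicalGroup G)

/-- The representations on `H^1(E, ℚ_ℓ)` of an elliptic curve `E`. -/
def curve {W : L → Type} [∀ l, AddCommGroup (W l)] [∀ l, Module (K l) (W l)]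
    [∀ l, FiniteDimensional (K l) (W l)] (s : ∀ l, Representation (K l) G (W l)) :
    Curve (data p I F K t) where
  W := W
  acg := fun l => inferInstanceAs (AddCommGroup (W l))
  mod := fun l => inferInstanceAs (Module (K l) (W l))
  fin := fun l => inferInstanceAs (FiniteDimensional (K l) (W l))
  s := s

end

set_option linter.unusedSectionVars false

section

variable {p : ℕ} {G : Type} [Group G] [TopologicalSpace G] [IsTopologicalGroup G] {I : Subgroup G}
  [I.Normal] {F : G}

lemma exists_tensor {K V W : Type} [Field K] [CharZero K] [AddCommGroup V] [Module K V]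
    [FiniteDimensional K V] [AddCommGroup W] [Module K W] [FiniteDimensional K W] {t : G → K}
    (hp : p ≠ 0) (hG : IsWeilGroup I F) {ρ : Representation K G V}
    (h : ∃ (r : Representation K G V) (N : Module.End K V), Attached p I F t ρ r N)
    {s : Representation K G W} (hs : IsTate p I F t s) :
    ∃ (d : ℕ) (ρ' : Representation K G (Fin d → K)), IsTensorOf ρ' ρ s ∧
      ∃ (r : Representation K G (Fin d → K)) (N : Module.End K (Fin d → K)),
        Attached p I F t ρ' r N := by
  obtain ⟨r, N, h⟩ := h
  obtain ⟨b, hb0, hb1, hb⟩ := hs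
  have e : (Fin (Module.finrank K (V ⊗[K] W)) → K) ≃ₗ[K] V ⊗[K] W :=
    (Module.finBasis K (V ⊗[K] W)).equivFun.symm
  have h1 : IsTensorOf (cRep e (ρ.tprod s)) ρ s := by
    refine ⟨e, fun g v => ?_⟩
    rw [cRep_apply, cEnd_apply, LinearEquiv.apply_symm_apply]
    rfl
  obtain ⟨r', N', h2, -⟩ := tate_step hp hG h h1 b hb0 hb1 hb
  exact ⟨_, _, h1, r', N', h2⟩

lemma exists_induced {K V : Type} [Field K] [CharZero K] [AddCommGroup V] [Module K V]
    [FiniteDimensional K V] {t : G → K}
    (hp : p ≠ 0) (hG : IsWeilGroup I F) {ρ : Representation K G V}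
    (h : ∃ (r : Representation K G V) (N : Module.End K V), Attached p I F t ρ r N)
    {H : Subgroup G} (hH : IsOpen (H : Set G)) (hf : H.FiniteIndex) :
    ∃ (d : ℕ) (ρ' : Representation K G (Fin d → K)), IsInduced H ρ' ρ ∧
      ∃ (r : Representation K G (Fin d → K)) (N : Module.End K (Fin d → K)),
        Attached p I F t ρ' r N := by
  obtain ⟨r, N, h⟩ := h
  have hfin : Finite (G ⧸ H) := H.finite_quotient_of_finiteIndex
  have e : (Fin (Module.finrank K (G ⧸ H → V)) → K) ≃ₗ[K] (G ⧸ H → V) :=
    (Module.finBasis K (G ⧸ H → V)).equivFun.symm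
  have h1 : IsInduced H (cRep e (permRep H ρ)) ρ := by
    refine ⟨e, fun g v x => ?_⟩
    rw [cRep_apply, cEnd_apply, LinearEquiv.apply_symm_apply, permRep_apply]
  obtain ⟨r', N', h2, -⟩ := attached_induced h h1 hH hf fun x j => h.stable_all hp hG x j
  exact ⟨_, _, h1, r', N', h2⟩

variable {L : Type} {K : L → Type} [∀ l, Field (K l)] [∀ l, CharZero (K l)] {t : ∀ l, G → K l}

/-- The hypotheses `Facts` for all families. -/
theorem facts (hp : p ≠ 0) (hG : IsWeilGroup I F) (ht : ∀ l, IsTame I (t l))
    {W : L → Type} [∀ l, AddCommGroup (W l)] [∀ l, Module (K l) (W l)]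
    [∀ l, FiniteDimensional (K l) (W l)] (s : ∀ l, Representation (K l) G (W l))
    (hs : ∀ l, IsTate p I F (t l) (s l)) :
    Facts (data p I F K t) p t (curve p I F K t s) where
  weil := hG
  tame := ht
  monodromy l M i := M.mono l i
  artin := by
    intro H hH hf (M : Fam p I F K t)
    have h1 := fun (l : L) (i : ℤ) => exists_induced hp hG (M.mono l i) hH hf
    choose d ρ' h2 h3 using h1
    exact ⟨(⟨d, ρ', h3⟩ : Fam p I F K t), h2⟩
  split := hs
  tensor := by
    intro (M : Fam p I F K t)
    have h1 := fun (l : L) (i : ℤ) => exists_tensor hp hG (M.mono l (i - 1)) (hs l)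
    choose d ρ' h2 h3 using h1
    refine ⟨(⟨d, ρ', h3⟩ : Fam p I F K t), fun l i => ?_⟩
    have h4 := h2 l (i + 1)
    have e : i + 1 - 1 = i := by ring
    rw [e] at h4
    exact h4

end

end Pool.Agent.Q219.WF
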